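import Pool.Agent.W648.UN.Stm

set_option autoImplicit false

open MeasureTheory Set Filter Topology

noncomputable section

namespace Pool.Agent.W503.UN

open Pool.Agent.W648.UN

/-- a continuous function vanishing on the negative half line is bounded on half lines -/
lemma bdd_of {g : ℝ → ℂ} (hg : Continuous g) (h0 : ∀ t ≤ 0, g t = 0) (T : ℝ) :
    ∃ B : ℝ, 0 ≤ B ∧ ∀ t ≤ T, ‖g t‖ ≤ B := by
  obtain ⟨B, hB⟩ := (isCompact_Icc (a := (0 : ℝ)) (b := T)).exists_bound_of_continuousOn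
    (f := g) hg.continuousOn
  refine ⟨max B 0, le_max_right _ _, fun t ht => ?_⟩
  rcases le_total t 0 with h | h
  · rw [h0 t h, norm_zero]; exact le_max_right _ _
  · exact (hB t ⟨h, ht⟩).trans (le_max_left _ _)

lemma ak_meas (hA : S_AK) : AEStronglyMeasurable (fun η => (ak η : ℂ)) (volume.restrict (Ioi (0 : ℝ))) :=
  Complex.continuous_ofReal.comp_aestronglyMeasurable hA.1.aestronglyMeasurable

lemma meas_of (hA : S_AK) {g : ℝ → ℂ} (hg : Continuous g) (t : ℝ) :
    AEStronglyMeasurable (fun η => (ak η : ℂ) * g (t - η)) (volume.restrict (Ioi (0 : ℝ))) :=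
  (ak_meas hA).mul (hg.comp (continuous_const.sub continuous_id)).aestronglyMeasurable

lemma bound_of (hA : S_AK) {g : ℝ → ℂ} {B T t : ℝ} (hB : ∀ t ≤ T, ‖g t‖ ≤ B) (ht : t ≤ T) :
    ∀ᵐ η ∂(volume.restrict (Ioi (0 : ℝ))), ‖(ak η : ℂ) * g (t - η)‖ ≤ ak η * B := by
  filter_upwards [ae_restrict_mem measurableSet_Ioi] with η hη
  have h1 : 0 ≤ ak η := hA.2.2 η hη
  rw [norm_mul, Complex.norm_real, Real.norm_of_nonneg h1]
  have hη' : 0 < η := hη
  exact mul_le_mul_of_nonneg_left (hB _ (by linarith)) h1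

lemma int_of (hA : S_AK) {g : ℝ → ℂ} (hg : Continuous g) (h0 : ∀ t ≤ 0, g t = 0) (t : ℝ) :
    IntegrableOn (fun η => (ak η : ℂ) * g (t - η)) (Ioi (0 : ℝ)) := by
  obtain ⟨B, _, hB⟩ := bdd_of hg h0 t
  exact Integrable.mono' (hA.1.mul_const B) (meas_of hA hg t) (bound_of hA hB le_rfl)

lemma JJ_cont (hA : S_AK) {g : ℝ → ℂ} (hg : Continuous g) (h0 : ∀ t ≤ 0, g t = 0) :
    Continuous (JJ g) := by
  rw [continuous_iff_continuousAt]
  intro t0
  obtain ⟨B, _, hB⟩ := bdd_of hg h0 (t0 + 1)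
  unfold JJ
  refine continuousAt_of_dominated (bound := fun η => ak η * B) ?_ ?_ ?_ ?_
  · exact Eventually.of_forall fun t => meas_of hA hg t
  · filter_upwards [Iio_mem_nhds (show t0 < t0 + 1 by linarith)] with t ht
    exact bound_of hA hB (le_of_lt ht)
  · exact hA.1.mul_const B
  · refine Eventually.of_forall fun η => ?_
    exact (continuous_const.mul (hg.comp (continuous_id.sub continuous_const))).continuousAt

lemma JJ_zero {g : ℝ → ℂ} (h0 : ∀ t ≤ 0, g t = 0) (t : ℝ) (ht : t ≤ 0) : JJ g t = 0 := by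
  unfold JJ
  rw [setIntegral_congr_fun (g := fun _ => (0 : ℂ)) measurableSet_Ioi]
  · simp
  · intro η hη
    have hη' : 0 < η := hη
    simp only
    rw [h0 _ (by linarith), mul_zero]

lemma JJ_deriv (hA : S_AK) {g g' : ℝ → ℂ} (hg : ∀ t, HasDerivAt g (g' t) t) (hg' : Continuous g')
    (h0 : ∀ t ≤ 0, g t = 0) (h0' : ∀ t ≤ 0, g' t = 0) (t0 : ℝ) :
    HasDerivAt (JJ g) (JJ g' t0) t0 := by
  have hgc : Continuous g := continuous_iff_continuousAt.2 fun t => (hg t).continuousAt
  obtain ⟨B, _, hB⟩ := bdd_of hg' h0' (t0 + 1)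
  unfold JJ
  refine (hasDerivAt_integral_of_dominated_loc_of_deriv_le (s := Iio (t0 + 1))
    (F := fun t η => (ak η : ℂ) * g (t - η)) (F' := fun t η => (ak η : ℂ) * g' (t - η))
    (bound := fun η => ak η * B) (Iio_mem_nhds (by linarith)) ?_ (int_of hA hgc h0 t0)
    (meas_of hA hg' t0) ?_ (hA.1.mul_const B) ?_).2
  · exact Eventually.of_forall fun t => meas_of hA hgc t
  · filter_upwards [ae_restrict_mem measurableSet_Ioi] with η hη t ht
    have h1 : 0 ≤ ak η := hA.2.2 η hη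
    rw [norm_mul, Complex.norm_real, Real.norm_of_nonneg h1]
    have hη' : 0 < η := hη
    have ht' : t < t0 + 1 := ht
    exact mul_le_mul_of_nonneg_left (hB _ (by linarith)) h1
  · refine Eventually.of_forall fun η t _ => ?_
    have h2 : HasDerivAt (fun t => g (t - η)) (g' (t - η)) t := by
      simpa using (hg (t - η)).comp_sub_const t η
    exact h2.const_mul _

/-- vanishing of the derivative of a function vanishing on the negative half line -/
lemma deriv_zero {g g' : ℝ → ℂ} (hg : ∀ t, HasDerivAt g (g' t) t) (hg' : Continuous g')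
    (h0 : ∀ t ≤ 0, g t = 0) : ∀ t ≤ 0, g' t = 0 := by
  have h1 : ∀ t < 0, g' t = 0 := by
    intro t ht
    have h2 : HasDerivAt g 0 t := by
      refine (hasDerivAt_const t (0 : ℂ)).congr_of_eventuallyEq ?_
      filter_upwards [Iio_mem_nhds ht] with s hs
      exact h0 s (le_of_lt hs)
    exact (hg t).unique h2
  intro t ht
  rcases ht.eq_or_lt with h | h
  · subst h
    have h3 : Tendsto g' (𝓝[<] 0) (𝓝 (g' 0)) := hg'.continuousAt.tendsto.mono_left nhdsWithin_le_nhds
    have h4 : Tendsto g' (𝓝[<] 0) (𝓝 0) := by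
      refine tendsto_const_nhds.congr' ?_
      filter_upwards [self_mem_nhdsWithin] with s hs
      exact (h1 s hs).symm
    exact tendsto_nhds_unique h3 h4
  · exact h1 t h

theorem jd_th (hA : S_AK) : S_JD := by
  intro d hd h0
  have hd1 : ∀ t, HasDerivAt d (deriv d t) t := fun t =>
    ((hd.differentiable (by norm_num)) t).hasDerivAt
  have hc1 : ContDiff ℝ 1 (deriv d) := by
    have : ContDiff ℝ (1 + 1) d := by simpa [one_add_one_eq_two] using hd
    exact (contDiff_succ_iff_deriv.1 this).2.2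
  have e2 : iteratedDeriv 2 d = deriv (deriv d) := by
    rw [iteratedDeriv_succ, iteratedDeriv_one]
  have hd2 : ∀ t, HasDerivAt (deriv d) (iteratedDeriv 2 d t) t := by
    intro t
    rw [e2]
    exact ((hc1.differentiable (by norm_num)) t).hasDerivAt
  have hc2 : Continuous (iteratedDeriv 2 d) := hd.continuous_iteratedDeriv 2 (by norm_num)
  have z1 := deriv_zero hd1 hc1.continuous h0
  have z2 := deriv_zero hd2 hc2 z1
  have hJ : Continuous (JJ (iteratedDeriv 2 d)) := JJ_cont hA hc2 z2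
  refine ⟨hJ, JJ_zero z2, ?_⟩
  intro t _
  set k := JJ (iteratedDeriv 2 d) with hk
  -- first step : JJ d' = ∫ k
  have s1 : ∀ t, JJ (deriv d) t = ∫ s in (0 : ℝ)..t, k s := by
    intro t
    have h1 := intervalIntegral.integral_eq_sub_of_hasDerivAt (a := 0) (b := t)
      (fun x _ => JJ_deriv hA hd2 hc2 z1 z2 x) (hJ.intervalIntegrable 0 t)
    rw [h1, JJ_zero z1 0 le_rfl, sub_zero]
  -- second step
  have hG : ∀ t : ℝ, HasDerivAt (fun t : ℝ => (t : ℂ) * (∫ s in (0 : ℝ)..t, k s) -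
      ∫ s in (0 : ℝ)..t, (s : ℂ) * k s) (∫ s in (0 : ℝ)..t, k s) t := by
    intro t
    have a1 : HasDerivAt (fun t : ℝ => ∫ s in (0 : ℝ)..t, k s) (k t) t :=
      intervalIntegral.integral_hasDerivAt_right (hJ.intervalIntegrable 0 t)
        (hJ.stronglyMeasurableAtFilter _ _) hJ.continuousAt
    have hJ2 : Continuous (fun s : ℝ => (s : ℂ) * k s) := Complex.continuous_ofReal.mul hJ
    have a2 : HasDerivAt (fun t : ℝ => ∫ s in (0 : ℝ)..t, (s : ℂ) * k s) ((t : ℂ) * k t) t :=
      intervalIntegral.integral_hasDerivAt_right (hJ2.intervalIntegrable 0 t)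
        (hJ2.stronglyMeasurableAtFilter _ _) hJ2.continuousAt
    have a3 : HasDerivAt (fun t : ℝ => (t : ℂ)) 1 t := Complex.ofRealCLM.hasDerivAt
    refine ((a3.mul a1).sub a2).congr_deriv ?_
    ring
  have hF : ∀ t : ℝ, HasDerivAt (JJ d) (∫ s in (0 : ℝ)..t, k s) t := by
    intro t
    rw [← s1]
    exact JJ_deriv hA hd1 hc1.continuous h0 z1 t
  have hdiff : ∀ t : ℝ, HasDerivAt (fun t : ℝ => JJ d t - ((t : ℂ) * (∫ s in (0 : ℝ)..t, k s) -
      ∫ s in (0 : ℝ)..t, (s : ℂ) * k s)) 0 t := by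
    intro t
    refine ((hF t).sub (hG t)).congr_deriv ?_
    ring
  have hconst := is_const_of_deriv_eq_zero (fun t => (hdiff t).differentiableAt)
    (fun t => (hdiff t).deriv) t 0
  simp only [intervalIntegral.integral_same, JJ_zero h0 0 le_rfl, mul_zero, sub_zero] at hconst
  rw [sub_eq_zero.1 hconst, ← intervalIntegral.integral_const_mul,
    ← intervalIntegral.integral_sub]
  · refine intervalIntegral.integral_congr fun s _ => ?_
    push_cast
    ring
  · exact (continuous_const.mul hJ).intervalIntegrable _ _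
  · exact (Complex.continuous_ofReal.mul hJ).intervalIntegrable _ _

/-! ### comparison -/

lemma NB_mono {H : ℝ → ℂ} {η η' : ℝ} (h : NB H η) (hη : η ≤ η') : NB H η' :=
  ⟨h.1, h.2.1, h.2.2.trans hη⟩

lemma NB_neg {H : ℝ → ℂ} {η : ℝ} (h : NB H η) : NB (fun s => - H s) η := by
  obtain ⟨h1, h2, h3⟩ := h
  refine ⟨h1.neg, ?_, ?_⟩
  · simpa only [norm_neg] using h2
  · simpa only [norm_neg] using h3

lemma TT_nonpos (hC : S_CTS) (hT : S_TR) (hcg : S_CONGR) {h : ℝ → ℝ} (hh : okh h) {t : ℝ}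
    (ht : t ≤ 0) : TT (HH h t) = (Real.pi : ℂ) := by
  have h1 := hT h hh 0 le_rfl
  rw [intervalIntegral.integral_same, add_zero] at h1
  rw [← h1]
  have hz : ∀ x ∈ Ioo (0 : ℝ) 1, HH h t x = HH h 0 x := by
    intro x hx
    have hl : Real.log x < 0 := Real.log_neg hx.1 hx.2
    unfold HH
    rw [hh.2.1 _ (by linarith), hh.2.1 _ (by linarith)]
  have hNB : NB (HH h t) (1 / 20) := NB_mono ((hC h hh).1 t) (by norm_num)
  have h0 : (0 : ℂ) ∈ Om := by simp [Om]
  have e1 := (hcg ℂ (HH h t) (HH h 0) 0 hNB h0 hz).2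
  have e2 := (hcg ℂ (fun s => - HH h t s) (fun s => - HH h 0 s) 0 (NB_neg hNB) h0
    (fun x hx => by rw [hz x hx])).2
  unfold TT
  rw [e1, e2]

theorem cmp_th (hA : S_AK) (hJV : S_JV) (hJQ : S_JQ) (hJD : S_JD) (hAb : S_ABEL) (hC : S_CTS)
    (hT : S_TR) (hcg : S_CONGR) : S_CMP := by
  intro h h0 d t1 hh hh0 hd hd0 hq t ht
  set f1 : ℝ → ℂ := fun t => TT (HH h t) - (Real.pi : ℂ) with hf1
  set f0 : ℝ → ℂ := fun t => TT (HH h0 t) - (Real.pi : ℂ) with hf0
  have c1 : Continuous f1 := (hC h hh).2.1.sub continuous_const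
  have c0 : Continuous f0 := (hC h0 hh0).2.1.sub continuous_const
  have cd : Continuous d := hd.continuous
  have z1 : ∀ t ≤ 0, f1 t = 0 := fun t ht => by
    rw [hf1]; simp only; rw [TT_nonpos hC hT hcg hh ht, sub_self]
  have z0 : ∀ t ≤ 0, f0 t = 0 := fun t ht => by
    rw [hf0]; simp only; rw [TT_nonpos hC hT hcg hh0 ht, sub_self]
  set g : ℝ → ℂ := fun t => f1 t - f0 t - d t with hg
  have cg : Continuous g := (c1.sub c0).sub cd
  have zg : ∀ t ≤ 0, g t = 0 := fun t ht => by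
    rw [hg]; simp only; rw [z1 t ht, z0 t ht, hd0 t ht]; ring
  have key : ∀ t < t1, JJ g t = 0 := by
    intro t ht
    rcases lt_or_ge t 0 with hneg | hpos
    · exact JJ_zero zg t hneg.le
    have e : JJ g t = JJ f1 t - JJ f0 t - JJ d t := by
      unfold JJ
      have i12 : IntegrableOn (fun η => (ak η : ℂ) * f1 (t - η) - (ak η : ℂ) * f0 (t - η))
        (Ioi (0 : ℝ)) := (int_of hA c1 z1 t).sub (int_of hA c0 z0 t)
      rw [← integral_sub (int_of hA c1 z1 t) (int_of hA c0 z0 t),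
        ← integral_sub i12 (int_of hA cd hd0 t)]
      congr 1
      funext η
      simp only [hg]
      ring
    obtain ⟨q1, _, q3⟩ := hJQ h hh
    obtain ⟨r1, _, r3⟩ := hJQ h0 hh0
    obtain ⟨s1, _, s3⟩ := hJD d hd hd0
    rw [e, hf1, hf0, hJV h hh t hpos, hJV h0 hh0 t hpos, q3 t hpos, r3 t hpos, s3 t hpos]
    have cts : Continuous (fun s : ℝ => ((t - s : ℝ) : ℂ)) :=
      Complex.continuous_ofReal.comp (continuous_const.sub continuous_id)
    have i1 : IntervalIntegrable (fun s : ℝ => ((t - s : ℝ) : ℂ) * QQ h s) volume 0 t :=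
      (cts.mul q1).intervalIntegrable _ _
    have i2 : IntervalIntegrable (fun s : ℝ => ((t - s : ℝ) : ℂ) * QQ h0 s) volume 0 t :=
      (cts.mul r1).intervalIntegrable _ _
    have i3 : IntervalIntegrable (fun s : ℝ => ((t - s : ℝ) : ℂ) * JJ (iteratedDeriv 2 d) s)
      volume 0 t := (cts.mul s1).intervalIntegrable _ _
    have i12 : IntervalIntegrable (fun s : ℝ => ((t - s : ℝ) : ℂ) * QQ h s -
      ((t - s : ℝ) : ℂ) * QQ h0 s) volume 0 t := i1.sub i2
    rw [← intervalIntegral.integral_sub i1 i2, ← intervalIntegral.integral_sub i12 i3]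
    rw [intervalIntegral.integral_congr (g := fun _ => (0 : ℂ))]
    · simp
    · intro s hs
      rw [uIcc_of_le hpos] at hs
      simp only
      rw [hq s (by linarith [hs.2])]
      ring
  have := hAb g cg zg t1 key t ht
  rw [hg, hf1, hf0] at this
  simp only at this
  linear_combination this

end Pool.Agent.W503.UN
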